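import Pool.Agent.V7H9.GF.Mixed
import Pool.Agent.TH117.GN.Main

/-!
# The conjecture of Tate and Beilinson for schemes generated by abelian varieties with good factors or
# regular blocks
-/

set_option autoImplicit false

namespace Pool.Agent.V7H9.GF

open Pool.Agent.W495.TA Pool.Agent.W495.FM Pool.Agent.TH117.BL

variable {p : ℕ} [Fact p.Prime] {ν : PadicAlgCl p ≃+* ℂ} {Ω : Type} [Field Ω] [IsAlgClosed Ω]
  [CharZero Ω] {V : Type} {T : Homology Ω V}

theorem tb_mixed (hT : IsHomology T) {X : V} (hX : Generated T (IsMixedAbelian p ν T) X) :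
    TB T X := by
  refine tb_generated hT (fun X hX => ?_) hX
  obtain ⟨Z, Y, C, M, g, hZ, hY, hC, hM, hX⟩ := hX
  exact tb_abelian hT hC
    (Pool.Agent.TH117.GN.tateHolds_elem (elementary_of_mixed hZ) hY hC) hM hX

end Pool.Agent.V7H9.GF
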