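import Pool.Agent.V7H95.Fin.GenDefs
import Pool.Agent.V7H82.HT.Stm

/-!
# Abelian varieties over finite fields with good factors or regular blocks: definitions
-/

set_option autoImplicit false

namespace Pool.Agent.V7H9.GF

open NumberField Module
open Pool.Agent.W495.TA Pool.Agent.W495.FM Pool.Agent.TH117.BL Pool.Agent.V7H95.Fin
  Pool.Agent.V7H82.HS

variable {p : ℕ} [Fact p.Prime] {ν : PadicAlgCl p ≃+* ℂ}

/-- The factor `i` of `Z` is *good*: it is independent of all other factors (for an embedding of its CM
field and an embedding of the CM field of another factor some automorphism of the complex numbers fixes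
one of them and conjugates the other); and its dimension is at most five, or its CM field is a good
field (`IsGoodField`) and it is not of Weil type (`IsWeilType`). -/
def IsGoodFactor (Z : RedAV p ν) (i : Z.X.I) : Prop :=
  (∀ k : Z.X.I, k ≠ i → ∀ (φ : (Z.X.factor i).E →+* ℂ) (ψ : (Z.X.factor k).E →+* ℂ),
    ∃ σ : ℂ ≃+* ℂ, (move σ φ = φ ∧ move σ ψ = ComplexEmbedding.conjugate ψ) ∨
      (move σ φ = ComplexEmbedding.conjugate φ ∧ move σ ψ = ψ)) ∧
  (finrank ℚ (Z.X.factor i).E ≤ 10 ∨ (IsGoodField (Z.X.factor i).E ∧ ¬ IsWeilType Z i))

/-- Each Frobenius eigenvalue of `Z` comes from a good factor, or it is real (supersingular), or it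
belongs to a regular block, or the number field generated by it has prime power degree over an imaginary
quadratic field as in `IsOverQuadratic`, or twice a prime power degree over `ℚ` as in
`HasPrimePowerDegree`. -/
def HasMixedBlocks (Z : RedAV p ν) : Prop :=
  ∀ w : Emb Z, IsGoodFactor Z w.1 ∨ bar (eig Z w) = eig Z w ∨ IsInRegularBlock Z (eig Z w) ∨
    IsOverQuadratic Z (eig Z w) ∨ HasPrimePowerDegree Z (eig Z w)

/-- The groups of motivic and of `ℓ`-adic homology of `X` are those of an abelian variety `Y` which is
isogenous, over an algebraic closure, to a product of a supersingular abelian variety and of powers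
of the factors of an abelian variety `Z` with good factors or regular blocks (`HasMixedBlocks`). -/
def IsMixedAbelian {Ω V : Type} [Field Ω] [CharZero Ω] (p : ℕ) [Fact p.Prime]
    (ν : PadicAlgCl p ≃+* ℂ) (T : Homology Ω V) (X : V) : Prop :=
  ∃ (Z Y : RedAV p ν) (C : Cycles Ω Y) (M : Motivic C) (g : ℕ), HasMixedBlocks Z ∧
    IsMadeOf Z Y ∧ IsChow C ∧ IsMotivic M ∧ IsAbelian T X M g

end Pool.Agent.V7H9.GF
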