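import Pool.Agent.V7H9.GF.One

/-!
# The relations between the Frobenius eigenvalues are elementary for good factors and regular blocks
-/

set_option autoImplicit false
set_option linter.unusedSectionVars false
set_option linter.unusedVariables false

namespace Pool.Agent.V7H9.GF

open NumberField Module MulAction
open Pool.Agent.W495.TA Pool.Agent.TH117.BL Pool.Agent.TH117.PO Pool.Agent.N202.QR
  Pool.Agent.V7H82.LR Pool.Agent.V7H82.HT Pool.Agent.TH127.SC Pool.Agent.V7H95.Fin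
  Pool.Agent.V7H82.HS

variable {p : ℕ} [Fact p.Prime] {ν : PadicAlgCl p ≃+* ℂ} {Z : RedAV p ν}

/-- The classes of linked embeddings of an independent factor belong to this factor. -/
theorem linked_factor {i : Z.X.I}
    (h : ∀ k : Z.X.I, k ≠ i → ∀ (φ : (Z.X.factor i).E →+* ℂ) (ψ : (Z.X.factor k).E →+* ℂ),
      ∃ σ : ℂ ≃+* ℂ, (move σ φ = φ ∧ move σ ψ = ComplexEmbedding.conjugate ψ) ∨
        (move σ φ = ComplexEmbedding.conjugate φ ∧ move σ ψ = ψ)) {w x : Emb Z}
    (hwx : IsLinked w x) : w.1 = i ↔ x.1 = i := by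
  have hf : ∀ w x : Emb Z, w.1 = i → x.1 ≠ i → ∃ σ : ℂ ≃+* ℂ,
      (moveE σ w = w ∧ moveE σ x = conjE x) ∨ (moveE σ w = conjE w ∧ moveE σ x = x) := by
    rintro ⟨j, φ⟩ ⟨k, ψ⟩ h1 h2
    obtain rfl : j = i := h1
    obtain ⟨σ, hσ⟩ := h k h2 φ ψ
    refine ⟨σ, hσ.imp (fun h => ⟨?_, ?_⟩) (fun h => ⟨?_, ?_⟩)⟩
    · exact congrArg (Sigma.mk j) h.1
    · exact congrArg (Sigma.mk k) h.2
    · exact congrArg (Sigma.mk j) h.1
    · exact congrArg (Sigma.mk k) h.2
  unfold IsLinked at hwx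
  induction hwx with
  | rel a b hab =>
    by_contra hcon
    apply hab
    by_cases ha : a.1 = i
    · have hb : b.1 ≠ i := fun hb => hcon ⟨fun _ => hb, fun _ => ha⟩
      obtain ⟨σ, hσ⟩ := hf a b ha hb
      rcases hσ with hσ | hσ
      · exact ⟨σ, Or.inl hσ⟩
      · exact ⟨σ, Or.inr (Or.inl hσ)⟩
    · have hb : b.1 = i := by
        by_contra hb
        exact hcon ⟨fun h => absurd h ha, fun h => absurd h hb⟩
      obtain ⟨σ, hσ⟩ := hf b a hb ha
      rcases hσ with hσ | hσ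
      · exact ⟨σ, Or.inr (Or.inl ⟨hσ.2, hσ.1⟩)⟩
      · exact ⟨σ, Or.inl ⟨hσ.2, hσ.1⟩⟩
  | refl a => exact Iff.rfl
  | symm a b _ ih => exact ih.symm
  | trans a b c _ _ ih1 ih2 => exact ih1.trans ih2

attribute [local instance] Pool.Agent.V7H82.HT.embAct

/-- **The relations between the Frobenius eigenvalues are elementary** if each eigenvalue comes from a
good factor or lies in a regular block. -/
theorem elementary_of_mixed (h : HasMixedBlocks Z) : HasElementaryRelations Z := by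
  classical
  intro e he
  obtain ⟨W, hW, hWrel⟩ := exists_W Z
  obtain ⟨N, U, hN, hU⟩ := exists_weight Z
  have hd : Rel (ℂ ≃+* ℂ) W (fun w => (e w : ℤ)) := (hWrel e).1 he
  have hG : ∀ (g : ℂ ≃+* ℂ) (y : Emb Z), g • conjE y = conjE (g • y) := act_conj
  refine mem_of_restrC (Γ := ℂ ≃+* ℂ) (cb := conjE) fun w => ?_
  let n : Emb Z → ℕ := fun x => if Link (ℂ ≃+* ℂ) conjE w x then e x else 0
  have hn : (fun x => (n x : ℤ)) = restrC (ℂ ≃+* ℂ) conjE w (fun x => (e x : ℤ)) := by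
    funext x
    change ((if Link (ℂ ≃+* ℂ) conjE w x then e x else 0 : ℕ) : ℤ) =
      if Link (ℂ ≃+* ℂ) conjE w x then (e x : ℤ) else 0
    split_ifs <;> rfl
  have hnR : IsRel Z n := by
    refine (hWrel n).2 ?_
    rw [hn]
    exact rel_restrC hG hW hd w
  rw [← hn]
  by_cases hg : ∃ x : Emb Z, IsLinked w x ∧ IsGoodFactor Z x.1
  · obtain ⟨x₀, hx₀, hg⟩ := hg
    refine mem_factor hg n (fun x hx => ?_) hnR
    by_contra hcon
    have hlink : IsLinked w x := by
      by_contra hcon'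
      exact hcon (if_neg hcon')
    exact hx ((linked_factor hg.1 (Relation.EqvGen.trans _ _ _
      (Relation.EqvGen.symm _ _ hx₀) hlink)).1 rfl)
  · refine mem_of_mult n fun x hx => ?_
    have hlink : IsLinked w x := by
      by_contra hcon
      exact hx (if_neg hcon)
    have hdn : ∀ σ : ℂ ≃+* ℂ, ∑ v, (n v : ℤ) * U (σ (eig Z v)) = 0 := by
      intro σ
      have h1 := rel_slope hnR σ
      have h2 : ((∑ v, (n v : ℤ) * U (σ (eig Z v)) : ℤ) : ℝ) =
          N * ∑ v, (n v : ℝ) * (2 * slope Z (σ (eig Z v)) - 1) := by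
        push_cast
        rw [Finset.mul_sum]
        refine Finset.sum_congr rfl fun v _ => ?_
        rw [hU _ (isEig_move σ ⟨v, rfl⟩)]
        ring
      rw [h1, mul_zero] at h2
      exact_mod_cast h2
    rcases h x with h1 | h1 | h1 | h1 | h1
    · exact absurd ⟨x, hlink, h1⟩ hg
    · exact Or.inl h1
    · exact Or.inr (mult_block hN hU hdn h1)
    · exact Or.inr (mult_block hN hU hdn (regular_of_quadratic ⟨x, rfl⟩ h1))
    · exact Or.inr (mult_degree hN hU hdn ⟨x, rfl⟩ h1)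

end Pool.Agent.V7H9.GF
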