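import Pool.Agent.V7H9.GF.Defs
import Pool.Agent.V7H95.Fin.Elem
import Pool.Agent.V7H82.HT.Elem

/-!
# Relations between the Frobenius eigenvalues which belong to one good factor
-/

set_option autoImplicit false
set_option linter.unusedSectionVars false
set_option linter.unusedVariables false

namespace Pool.Agent.V7H9.GF

open NumberField Module MulAction
open Pool.Agent.W495.TA Pool.Agent.TH117.PO Pool.Agent.TH117.BL Pool.Agent.N202.QR
open Pool.Agent.W547.KB
open Pool.Agent.V7H82.HS Pool.Agent.V7H82.TT Pool.Agent.V7H82.HT Pool.Agent.V7H95.Fin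

variable {p : ℕ} [Fact p.Prime] {ν : PadicAlgCl p ≃+* ℂ}

attribute [local instance] Pool.Agent.V7H82.HT.embAct

/-- One factor. -/
def one (Z : RedAV p ν) (i : Z.X.I) : RedAV p ν where
  X := single (Z.X.factor i)
  a := Z.a
  pos := Z.pos
  π := fun _ => Z.π i
  frob := fun _ => Z.frob i

/-- The embeddings of the CM field of the factor. -/
def inc (Z : RedAV p ν) (i : Z.X.I) (x : Emb (one Z i)) : Emb Z := ⟨i, x.2⟩

theorem inc_injective (Z : RedAV p ν) (i : Z.X.I) : Function.Injective (inc Z i) := by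
  rintro ⟨⟨⟩, φ⟩ ⟨⟨⟩, ψ⟩ h
  have h1 : φ = ψ := eq_of_heq (Sigma.mk.inj_iff.1 h).2
  rw [h1]

theorem mem_range_inc {Z : RedAV p ν} {i : Z.X.I} {w : Emb Z} :
    w ∈ Set.range (inc Z i) ↔ w.1 = i := by
  constructor
  · rintro ⟨x, rfl⟩
    rfl
  · obtain ⟨k, φ⟩ := w
    intro h
    obtain rfl : k = i := h
    exact ⟨⟨(), φ⟩, rfl⟩

theorem eig_inc (Z : RedAV p ν) (i : Z.X.I) (x : Emb (one Z i)) :
    eig Z (inc Z i x) = eig (one Z i) x := rfl

/-- Relations on one factor. -/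
theorem isRel_inc {Z : RedAV p ν} {i : Z.X.I} {n : Emb Z → ℕ} {m : Emb (one Z i) → ℕ}
    (h0 : ∀ w, w.1 ≠ i → n w = 0) (hm : ∀ x, n (inc Z i x) = m x) :
    IsRel Z n ↔ IsRel (one Z i) m := by
  classical
  have h1 : ∏ x, eig (one Z i) x ^ m x = ∏ w, eig Z w ^ n w := by
    refine Fintype.prod_of_injective (inc Z i) (inc_injective Z i) _ _ (fun w hw => ?_) fun x => ?_
    · rw [h0 w (fun h => hw (mem_range_inc.2 h)), pow_zero]
    · rw [eig_inc, hm]
  have h2 : ∑ x, m x = ∑ w, n w := by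
    refine Fintype.sum_of_injective (inc Z i) (inc_injective Z i) _ _ (fun w hw => ?_) fun x => ?_
    · exact h0 w (fun h => hw (mem_range_inc.2 h))
    · rw [hm]
  unfold IsRel
  rw [h1, h2]
  rfl

/-- The relations on a good factor which is not of Weil type are generated by pairs. -/
theorem pairs_one {Z : RedAV p ν} {i : Z.X.I} (hgood : IsGoodField (Z.X.factor i).E)
    (hweil : ¬ IsWeilType Z i) (m : Emb (one Z i) → ℕ) (hm : IsRel (one Z i) m) :
    (fun x => (m x : ℤ)) ∈ AddSubgroup.closure {d : Emb (one Z i) → ℤ |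
      ∃ n : Emb (one Z i) → ℕ, IsRel (one Z i) n ∧ ∑ x, n x ≤ 2 ∧ ∀ x, d x = n x} := by
  classical
  let _ : Unique (one Z i).X.I := inferInstanceAs (Unique Unit)
  obtain ⟨W, hWc, hWrel⟩ := exists_W (one Z i)
  have hd := (hWrel m).1 hm
  have hElm : Elm (ℂ ≃+* ℂ) W ⊆ {d : Emb (one Z i) → ℤ |
      ∃ n : Emb (one Z i) → ℕ, IsRel (one Z i) n ∧ ∑ x, n x ≤ 2 ∧ ∀ x, d x = n x} := by
    rintro d ⟨h1, n, h2, h3⟩
    refine ⟨n, ?_, h3, h2⟩
    rw [hWrel]
    have : (fun x => (n x : ℤ)) = d := funext fun x => (h2 x).symm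
    rw [this]
    exact h1
  refine mem_of_restr (Γ := ℂ ≃+* ℂ) fun y₀ => ?_
  rcases gen_orb (Γ := ℂ ≃+* ℂ) (cb := conjE) (W := W) conjE_conjE conjE_ne act_conj hWc
      conjE_mem_orbit (fun y z hz => (hz (mem_orbit_emb.2 rfl)).elim)
      (goodOrbit_of y₀ hgood) with h | ⟨v, hv, h1, h2⟩
  · exact AddSubgroup.closure_mono hElm (h _ hd)
  · exfalso
    apply hweil
    have h3 : IsRel (one Z i) (wexp (one Z i) y₀.1 v) := by
      rw [hWrel, ← nw_eq]
      exact h1
    have horb : ∀ φ : (Z.X.factor i).E →+* ℂ,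
        (⟨(), φ⟩ : Emb (one Z i)) ∈ orbit (ℂ ≃+* ℂ) y₀ := fun φ => mem_orbit_emb.2 rfl
    obtain ⟨s, hs, h4⟩ := h3
    refine ⟨fun φ => v ⟨(), φ⟩, ⟨fun φ => hv.1 _ (horb φ), fun φ => hv.2.1 _ (horb φ),
      fun σ φ ψ => hv.2.2 σ _ (horb φ) _ (horb ψ)⟩, s, hs, ?_⟩
    have e1 : ∏ x, eig (one Z i) x ^ wexp (one Z i) y₀.1 v x =
        ∏ φ : (Z.X.factor i).E →+* ℂ, if v ⟨(), φ⟩ = 1 then φ (Z.π i) else 1 := by
      rw [Fintype.prod_sigma, Fintype.prod_unique]
      refine Finset.prod_congr rfl fun φ _ => ?_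
      unfold wexp eig
      by_cases h : v ⟨(), φ⟩ = 1
      · rw [if_pos ⟨rfl, h⟩, if_pos h, pow_one]
        rfl
      · rw [if_neg (fun h' => h h'.2), if_neg h, pow_zero]
    have e2 : ∑ x, wexp (one Z i) y₀.1 v x =
        (Finset.univ.filter fun φ : (Z.X.factor i).E →+* ℂ => v ⟨(), φ⟩ = 1).card := by
      rw [Fintype.sum_sigma, Fintype.sum_unique, Finset.card_filter]
      refine Finset.sum_congr rfl fun φ _ => ?_
      unfold wexp
      by_cases h : v ⟨(), φ⟩ = 1
      · rw [if_pos ⟨rfl, h⟩, if_pos h]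
      · rw [if_neg (fun h' => h h'.2), if_neg h]
    rw [← e1, ← e2]
    exact h4

/-- **The relations on a good factor.** -/
theorem mem_factor {Z : RedAV p ν} {i : Z.X.I} (hi : IsGoodFactor Z i) (n : Emb Z → ℕ)
    (h0 : ∀ w, w.1 ≠ i → n w = 0) (hn : IsRel Z n) : (fun w => (n w : ℤ)) ∈ elm Z := by
  classical
  rcases hi.2 with h10 | ⟨hgood, hweil⟩
  rotate_left
  · have h1 := pairs_one hgood hweil (fun x => n (inc Z i x)) ((isRel_inc h0 fun _ => rfl).1 hn)
    let ext : (Emb (one Z i) → ℤ) →+ (Emb Z → ℤ) := Function.ExtendByZero.hom ℤ (inc Z i)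
    have hext : ∀ (d : Emb (one Z i) → ℤ) x, ext d (inc Z i x) = d x := fun d x =>
      (inc_injective Z i).extend_apply d (0 : Emb Z → ℤ) x
    have hext0 : ∀ (d : Emb (one Z i) → ℤ) (w : Emb Z), w.1 ≠ i → ext d w = 0 := fun d w hw =>
      Function.extend_apply' d (0 : Emb Z → ℤ) w fun h => hw (mem_range_inc.1 h)
    have h2 : AddSubgroup.closure {d : Emb (one Z i) → ℤ |
        ∃ n : Emb (one Z i) → ℕ, IsRel (one Z i) n ∧ ∑ x, n x ≤ 2 ∧ ∀ x, d x = n x} ≤
        (elm Z).comap ext := by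
      rw [AddSubgroup.closure_le]
      rintro d ⟨m, hm, hs, hd⟩
      have hk : ∀ w : Emb Z, ∃ k : ℕ, (w.1 ≠ i → k = 0) ∧ ∀ x, inc Z i x = w → k = m x := by
        intro w
        by_cases hw : w.1 = i
        · obtain ⟨x, rfl⟩ := mem_range_inc.2 hw
          exact ⟨m x, fun h => absurd hw h, fun y hy => by rw [inc_injective Z i hy]⟩
        · exact ⟨0, fun _ => rfl, fun x hx => absurd (mem_range_inc.1 ⟨x, hx⟩) hw⟩
      choose k hk0 hkx using hk
      refine AddSubgroup.subset_closure ⟨k, (isRel_inc hk0 fun x => hkx _ x rfl).2 hm, Or.inl ?_,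
        fun w => ?_⟩
      · refine le_trans (le_of_eq ?_) hs
        symm
        refine Fintype.sum_of_injective (inc Z i) (inc_injective Z i) _ _ (fun w hw => ?_)
          fun x => ?_
        · exact hk0 w (fun h => hw (mem_range_inc.2 h))
        · exact (hkx _ x rfl).symm
      · by_cases hw : w.1 = i
        · obtain ⟨x, rfl⟩ := mem_range_inc.2 hw
          rw [hext, hd, hkx _ x rfl]
        · rw [hext0 d w hw, hk0 w hw]
          rfl
    have h3 := h2 h1
    have h4 : (fun w => (n w : ℤ)) = ext (fun x => (n (inc Z i x) : ℤ)) := by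
      funext w
      by_cases hw : w.1 = i
      · obtain ⟨x, rfl⟩ := mem_range_inc.2 hw
        rw [hext]
      · rw [hext0 _ w hw, h0 w hw]
        rfl
    rw [h4]
    exact h3
  · refine AddSubgroup.subset_closure ⟨n, hn, Or.inr (Or.inl ⟨{i}, Or.inl ⟨?_, ?_⟩, fun w hw => ?_⟩),
      fun w => rfl⟩
    · rw [Finset.sum_eq_single i]
      · rw [if_pos (Set.mem_singleton _)]
        exact h10
      · intro k _ hk
        rw [if_neg (fun h => hk (Set.mem_singleton_iff.1 h))]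
      · intro h
        exact absurd (Finset.mem_univ _) h
    · intro k hk l hl hkl
      exact absurd ((Set.mem_singleton_iff.1 hk).trans (Set.mem_singleton_iff.1 hl).symm) hkl
    · by_contra h1
      exact hw (h0 w h1)

end Pool.Agent.V7H9.GF
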